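import Pool.Agent.UL3.Stmts

/-!
# Squad UL3, row UNI: every direction
-/

set_option autoImplicit false

namespace Pool.Agent.UL3.H45

open MeasureTheory Set

theorem V_image (R : E3 ≃ₗᵢ[ℝ] E3) (S : Set E3) : V (R '' S) = V S := by
  have h1 : MeasurePreserving R volume volume := R.measurePreserving
  have h2 : MeasurableEmbedding R := R.toHomeomorph.measurableEmbedding
  have h3 : volume (R ⁻¹' (R '' S)) = volume (R '' S) := h1.measure_preimage_emb h2 _
  rw [Set.preimage_image_eq S R.injective] at h3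
  unfold V Measure.real
  rw [h3]

theorem inner_three (x u : E3) : inner ℝ x u = x 0 * u 0 + x 1 * u 1 + x 2 * u 2 := by
  rw [PiLp.inner_apply, Fin.sum_univ_three]
  simp only [RCLike.inner_apply, conj_trivial]
  ring

theorem moment (K : Set E3) (hK : IsCompact K)
    (hI : ∀ i j : Fin 3, ∫ x in K, x i * x j = if i = j then V K else 0) (u : E3) (hu : ‖u‖ = 1) :
    ∫ x in K, (inner ℝ x u) ^ 2 = V K := by
  have hint : ∀ (i j : Fin 3) (c : ℝ), IntegrableOn (fun x : E3 => c * (x i * x j)) K := by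
    intro i j c
    have hc : Continuous fun x : E3 => c * (x i * x j) := by fun_prop
    exact hc.continuousOn.integrableOn_compact hK
  have hval : ∀ (i j : Fin 3) (c : ℝ),
      ∫ x in K, c * (x i * x j) = c * (if i = j then V K else 0) := by
    intro i j c
    rw [integral_const_mul, hI i j]
  have hu2 : u 0 ^ 2 + u 1 ^ 2 + u 2 ^ 2 = 1 := by
    have h := inner_three u u
    rw [real_inner_self_eq_norm_sq, hu] at h
    linarith [h]
  have hexp : (fun x : E3 => (inner ℝ x u) ^ 2) = fun x : E3 =>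
      ((((u 0 ^ 2) * (x 0 * x 0) + (u 1 ^ 2) * (x 1 * x 1)) + (u 2 ^ 2) * (x 2 * x 2))
        + (2 * u 0 * u 1) * (x 0 * x 1)) + (2 * u 0 * u 2) * (x 0 * x 2)
        + (2 * u 1 * u 2) * (x 1 * x 2) := by
    funext x
    rw [inner_three]
    ring
  rw [hexp]
  rw [integral_add, integral_add, integral_add, integral_add, integral_add]
  · simp only [hval]
    simp only [if_true, Fin.isValue]
    have h01 : ((0 : Fin 3) = 1) = False := by decide
    have h02 : ((0 : Fin 3) = 2) = False := by decide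
    have h12 : ((1 : Fin 3) = 2) = False := by decide
    simp only [h01, h02, h12, if_false]
    linear_combination (V K) * hu2
  · exact hint 0 0 _
  · exact hint 1 1 _
  · exact (hint 0 0 _).add (hint 1 1 _)
  · exact hint 2 2 _
  · exact ((hint 0 0 _).add (hint 1 1 _)).add (hint 2 2 _)
  · exact hint 0 1 _
  · exact (((hint 0 0 _).add (hint 1 1 _)).add (hint 2 2 _)).add (hint 0 1 _)
  · exact hint 0 2 _
  · exact ((((hint 0 0 _).add (hint 1 1 _)).add (hint 2 2 _)).add (hint 0 1 _)).add (hint 0 2 _)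
  · exact hint 1 2 _

theorem uni (h1 : DirStmt) (h2 : InvStmt) (h3 : RotStmt) (h4 : HgtStmt) : UniStmt := by
  intro K hK hG hI u hu
  obtain ⟨R, hR⟩ := h3 u hu
  obtain ⟨hS, hgd⟩ := h2 K R.toContinuousLinearEquiv hK
  have himg : ((R.toContinuousLinearEquiv : E3 ≃L[ℝ] E3) '' K : Set E3) = R '' K := rfl
  rw [himg] at hS hgd
  have hG' : ¬ Good (R '' K) := fun h => hG (hgd h)
  have hVK : V (R '' K) = V K := V_image R K
  have hmom : (∫ x in R '' K, (x 2) ^ 2) = V (R '' K) := by
    have e1 : (∫ x in R '' K, (x 2) ^ 2) = ∫ x in K, ((R x) 2) ^ 2 :=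
      (R.measurePreserving).setIntegral_image_emb R.toHomeomorph.measurableEmbedding
        (fun x : E3 => (x 2) ^ 2) K
    rw [e1, hVK]
    simp only [hR]
    exact moment K hK.cpt hI u hu
  obtain ⟨d1, d2, d3⟩ := h1 (R '' K) hS hG' hmom
  obtain ⟨_, g2, y, hy, hy2⟩ := h4 (R '' K) hS
  refine ⟨?_, ?_, ?_⟩
  · obtain ⟨x, hx, rfl⟩ := hy
    refine ⟨x, hx, ?_⟩
    rw [← hR x, hy2]
    exact d1
  · intro x hx
    have h := g2 (R x) (mem_image_of_mem _ hx)
    rw [← hR x]
    exact (le_abs_self _).trans (h.trans d2)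
  · intro δ hδ
    have h := d3 δ hδ
    rw [hVK] at h
    have e2 : {x : E3 | x ∈ R '' K ∧ |x 2| ≤ δ} = R '' {x : E3 | x ∈ K ∧ |inner ℝ x u| ≤ δ} := by
      ext y
      constructor
      · rintro ⟨⟨x, hx, rfl⟩, hy⟩
        refine ⟨x, ⟨hx, ?_⟩, rfl⟩
        rw [← hR x]
        exact hy
      · rintro ⟨x, ⟨hx, hx2⟩, rfl⟩
        refine ⟨⟨x, hx, rfl⟩, ?_⟩
        rw [hR x]
        exact hx2
    rw [e2, V_image] at h
    exact h

end Pool.Agent.UL3.H45
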